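import Pool.Agent.Q259.MW.Final

/-!
# Realizers of `h_n` with a large gap `h_{n+1} / h_n` are systems of imprimitivity

Proof. Let `h = h_n(Γ)`, `H = h_{n+1}(Γ) > 6 h` and let `a` be a realizer with parts `A_1, …, A_n`.
Splitting a part shows, for translates `S, T` of parts, that `H |S ∩ T| ≤ |∂(S ∩ T)|` or
`H |S ∖ T| ≤ |∂(S ∖ T)|`. So two translates are nearly disjoint or nearly equal, and near equality is
an equivalence relation. By averaging over `Aut(Γ)` each vertex `v` lies, for more than two thirds of
the automorphisms `g`, in the part of `g(a)` of one fixed class `b(v)`. The fibres of `b` form a system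
of imprimitivity, each vertex has at most `3h` neighbours in other blocks, and merging classes shows
that there are exactly `n`. Then each part of `a` has more than half of exactly one block, and moving
exceptional vertices to their block decreases the number of edges between the parts; hence there are
no exceptional vertices.
-/

set_option autoImplicit false

namespace Pool.Agent.Results.MP_8474a0_co.RealizersAreBlocks

open Pool.Agent.Q259.MW

/-- The example asked for in Q1: a finite connected vertex-transitive graph with at least `n + 1`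
vertices and `h_{n+1} > 2(n+1) h_n` for which no realizer of `h_n` is a system of imprimitivity. -/
def HasExample (n : ℕ) : Prop :=
  ∃ (V : Type) (_ : Fintype V) (Γ : SimpleGraph V), Γ.Connected ∧ VertexTransitive Γ ∧
    n + 1 ≤ Fintype.card V ∧ 2 * ((n : ℝ) + 1) * hway Γ n < hway Γ (n + 1) ∧
    ∀ c : V → Fin n, IsRealizer Γ c → ¬ IsSystem Γ c

/-- For no `n ≥ 2` there is such an example. More precisely, if `Γ` is a finite vertex-transitive graph
with at least `n + 1` vertices and `h_{n+1}(Γ) > 6 h_n(Γ)` (note that `2(n+1) ≥ 6`), then `h_n(Γ)` has a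
realizer and every realizer is a system of imprimitivity of size `n` for `Aut(Γ)`. -/
theorem result (n : ℕ) (hn : 2 ≤ n) : ¬ HasExample n ∧
    ∀ (V : Type) [Fintype V] (Γ : SimpleGraph V), VertexTransitive Γ →
      n + 1 ≤ Fintype.card V → 6 * hway Γ n < hway Γ (n + 1) →
      (∃ c : V → Fin n, IsRealizer Γ c) ∧ ∀ c : V → Fin n, IsRealizer Γ c → IsSystem Γ c := by
  have key : ∀ (V : Type) [Fintype V] (Γ : SimpleGraph V), VertexTransitive Γ →
      n + 1 ≤ Fintype.card V → 6 * hway Γ n < hway Γ (n + 1) →
      (∃ c : V → Fin n, IsRealizer Γ c) ∧ ∀ c : V → Fin n, IsRealizer Γ c → IsSystem Γ c :=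
    fun V _ Γ ht hV hgap => ⟨exists_realizer (by omega) (by omega),
      fun c hc => realizers ht (by omega) hgap c hc⟩
  refine ⟨?_, key⟩
  rintro ⟨V, _, Γ, -, ht, hV, hgap, hno⟩
  have h1 : 6 * hway Γ n < hway Γ (n + 1) := by
    refine lt_of_le_of_lt ?_ hgap
    have h2 : (2 : ℝ) ≤ n := by exact_mod_cast hn
    exact mul_le_mul_of_nonneg_right (by linarith) hway_nonneg
  obtain ⟨⟨c, hc⟩, h2⟩ := key V Γ ht hV h1
  exact hno c hc (h2 c hc)

end Pool.Agent.Results.MP_8474a0_co.RealizersAreBlocks
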